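import Pool.Agent.H15.G.R_seed8.TH698.NagT3
import Pool.Agent.H15.G.R_seed8.TH819.NagA

/-! Cutting a finite region along a line of real slope; absorbing points into the left corner of a
triangle. -/

set_option autoImplicit false

namespace Pool.Agent.TH207.NC

open Finset Pool.Agent.TH176.Nag

/-- an integral linear form which separates two finite sets separated by a real one -/
theorem exists_int_sep {S T : Set (ℤ × ℤ)} (hS : S.Finite) (hT : T.Finite) (θ c : ℝ)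
    (h1 : ∀ m ∈ S, (m.1 : ℝ) - θ * m.2 < c) (h2 : ∀ m ∈ T, c ≤ (m.1 : ℝ) - θ * m.2) :
    ∃ a b : ℤ, ∀ m ∈ S, ∀ m' ∈ T, a * m.1 + b * m.2 < a * m'.1 + b * m'.2 := by
  -- a gap
  obtain ⟨δ, hδ0, hδ⟩ : ∃ δ : ℝ, 0 < δ ∧ ∀ m ∈ S, (m.1 : ℝ) - θ * m.2 ≤ c - δ := by
    rcases S.eq_empty_or_nonempty with h | h
    · refine ⟨1, one_pos, fun m hm => ?_⟩
      rw [h] at hm
      exact absurd hm (Set.notMem_empty m)
    · obtain ⟨m0, hm0, hmax⟩ := Set.exists_max_image S (fun m => (m.1 : ℝ) - θ * m.2) hS h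
      refine ⟨c - ((m0.1 : ℝ) - θ * m0.2), by have := h1 m0 hm0; linarith, fun m hm => ?_⟩
      have := hmax m hm
      linarith
  -- a bound for the second coordinates
  obtain ⟨M, hM⟩ : ∃ M : ℝ, 0 ≤ M ∧ ∀ m ∈ S ∪ T, |(m.2 : ℝ)| ≤ M := by
    rcases (S ∪ T).eq_empty_or_nonempty with h | h
    · refine ⟨0, le_rfl, fun m hm => ?_⟩
      rw [h] at hm
      exact absurd hm (Set.notMem_empty m)
    · obtain ⟨m0, hm0, hmax⟩ := Set.exists_max_image (S ∪ T) (fun m => |(m.2 : ℝ)|)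
        (hS.union hT) h
      exact ⟨|(m0.2 : ℝ)|, abs_nonneg _, fun m hm => hmax m hm⟩
  obtain ⟨hM0, hM⟩ := hM
  obtain ⟨ρ, hρ1, hρ2⟩ := exists_rat_btwn (show θ - δ / (2 * (M + 1)) < θ from by
    have : 0 < δ / (2 * (M + 1)) := by positivity
    linarith)
  have hden : (0 : ℝ) < (ρ.den : ℝ) := by exact_mod_cast ρ.den_pos
  have hρ : (ρ : ℝ) = ρ.num / ρ.den := by exact_mod_cast (Rat.num_div_den ρ).symm
  refine ⟨ρ.den, -ρ.num, fun m hm m' hm' => ?_⟩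
  have key : ∀ p ∈ S ∪ T, |((p.1 : ℝ) - ρ * p.2) - ((p.1 : ℝ) - θ * p.2)| < δ / 2 := by
    intro p hp
    have e : ((p.1 : ℝ) - ρ * p.2) - ((p.1 : ℝ) - θ * p.2) = (θ - ρ) * p.2 := by ring
    rw [e, abs_mul]
    have h3 : |θ - ρ| < δ / (2 * (M + 1)) := by
      rw [abs_of_pos (by linarith)]
      linarith
    calc |θ - (ρ : ℝ)| * |(p.2 : ℝ)| ≤ |θ - (ρ : ℝ)| * (M + 1) := by
          apply mul_le_mul_of_nonneg_left _ (abs_nonneg _)
          have := hM p hp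
          linarith
      _ < δ / (2 * (M + 1)) * (M + 1) := by
          apply mul_lt_mul_of_pos_right h3
          linarith
      _ = δ / 2 := by
          field_simp
  have k1 := abs_lt.1 (key m (Or.inl hm))
  have k2 := abs_lt.1 (key m' (Or.inr hm'))
  have k3 := hδ m hm
  have k4 := h2 m' hm'
  have k5 : (m.1 : ℝ) - ρ * m.2 < (m'.1 : ℝ) - ρ * m'.2 := by linarith
  have k6 : (ρ.den : ℝ) * ((m.1 : ℝ) - ρ * m.2) < ρ.den * ((m'.1 : ℝ) - ρ * m'.2) :=
    mul_lt_mul_of_pos_left k5 hden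
  have e1 : ∀ p : ℤ × ℤ, (ρ.den : ℝ) * ((p.1 : ℝ) - ρ * p.2) =
      (((ρ.den : ℤ) * p.1 + -ρ.num * p.2 : ℤ) : ℝ) := by
    intro p
    rw [hρ]
    push_cast
    field_simp
    ring
  rw [e1, e1] at k6
  exact_mod_cast k6

/-- cutting along a line of real slope -/
theorem Emp_sep {ι κ : Type} [Finite ι] [Finite κ] {w : ι → ℕ} {v : κ → ℕ} {S T : Set (ℤ × ℤ)}
    (hS : S.Finite) (hT : T.Finite) (θ c : ℝ)
    (h1 : ∀ m ∈ S, (m.1 : ℝ) - θ * m.2 < c) (h2 : ∀ m ∈ T, c ≤ (m.1 : ℝ) - θ * m.2)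
    (hw : Emp w S) (hv : Emp v T) : Emp (Sum.elim w v) (S ∪ T) := by
  obtain ⟨a, b, hab⟩ := exists_int_sep hS hT θ c h1 h2
  -- translate to the first quadrant
  obtain ⟨N, hN⟩ : ∃ N : ℤ, ∀ m ∈ S ∪ T, 0 ≤ m.1 + N ∧ 0 ≤ m.2 + N := by
    obtain ⟨N1, hN1⟩ := ((hS.union hT).image Prod.fst).bddBelow
    obtain ⟨N2, hN2⟩ := ((hS.union hT).image Prod.snd).bddBelow
    refine ⟨max (-N1) (-N2), fun m hm => ⟨?_, ?_⟩⟩
    · have := hN1 (Set.mem_image_of_mem Prod.fst hm)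
      have := le_max_left (-N1) (-N2)
      linarith
    · have := hN2 (Set.mem_image_of_mem Prod.snd hm)
      have := le_max_right (-N1) (-N2)
      linarith
  obtain ⟨S', hS'⟩ : ∃ S' : Set (ℤ × ℤ), S' = {m | ((m.1 - N, m.2 - N) : ℤ × ℤ) ∈ S} := ⟨_, rfl⟩
  obtain ⟨T', hT'⟩ : ∃ T' : Set (ℤ × ℤ), T' = {m | ((m.1 - N, m.2 - N) : ℤ × ℤ) ∈ T} := ⟨_, rfl⟩
  have hinj : Function.Injective fun m : ℤ × ℤ => ((m.1 - N, m.2 - N) : ℤ × ℤ) := by
    rintro ⟨p, q⟩ ⟨p', q'⟩ h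
    simp only [Prod.mk.injEq] at h
    ext <;> simp <;> omega
  have hw' : Emp w S' := by
    refine hw.comap 1 0 0 1 (-N) (-N) (by norm_num) fun m hm => ?_
    rw [hS'] at hm
    have e : ((1 * m.1 + 0 * m.2 + -N, 0 * m.1 + 1 * m.2 + -N) : ℤ × ℤ) = (m.1 - N, m.2 - N) := by
      ext <;> simp <;> ring
    rw [e]; exact hm
  have hv' : Emp v T' := by
    refine hv.comap 1 0 0 1 (-N) (-N) (by norm_num) fun m hm => ?_
    rw [hT'] at hm
    have e : ((1 * m.1 + 0 * m.2 + -N, 0 * m.1 + 1 * m.2 + -N) : ℤ × ℤ) = (m.1 - N, m.2 - N) := by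
      ext <;> simp <;> ring
    rw [e]; exact hm
  have h3 := Pool.Agent.TH698.NagT3.Emp_cut (w := w) (v := v) (S := S') (T := T')
    (by rw [hS']; exact hS.preimage hinj.injOn) (by rw [hT']; exact hT.preimage hinj.injOn)
    (by
      intro m hm
      rw [hS'] at hm
      have := hN _ (Or.inl hm)
      simp only at this
      constructor <;> omega)
    (by
      intro m hm
      rw [hT'] at hm
      have := hN _ (Or.inr hm)
      simp only at this
      constructor <;> omega) a b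
    (by
      intro m hm m' hm'
      rw [hS'] at hm
      rw [hT'] at hm'
      have := hab _ hm _ hm'
      simp only at this
      linarith) hw' hv'
  refine h3.comap 1 0 0 1 N N (by norm_num) fun m hm => ?_
  have e : ((1 * m.1 + 0 * m.2 + N, 0 * m.1 + 1 * m.2 + N) : ℤ × ℤ) = (m.1 + N, m.2 + N) := by
    ext <;> simp
  rw [e]
  rcases hm with hm | hm
  · left
    rw [hS']
    show ((m.1 + N - N, m.2 + N - N) : ℤ × ℤ) ∈ S
    rw [add_sub_cancel_right, add_sub_cancel_right]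
    exact hm
  · right
    rw [hT']
    show ((m.1 + N - N, m.2 + N - N) : ℤ × ℤ) ∈ T
    rw [add_sub_cancel_right, add_sub_cancel_right]
    exact hm

theorem Emp_empty {κ : Type} (v : κ → ℕ) : Emp v (∅ : Set (ℤ × ℤ)) := by
  refine ⟨ℚ, inferInstance, inferInstance, fun _ => 1, fun _ => 1, fun _ => one_ne_zero,
    fun _ => one_ne_zero, fun f hf _ => ?_⟩
  ext m
  by_contra h
  exact hf (Finsupp.mem_support_iff.2 h)

/-- the triangle of slope sum `|κ|` and base less than `∑ v` -/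
theorem Emp_tri {κ : Type} [Fintype κ] (hκ : 1 ≤ Fintype.card κ) (v : κ → ℕ) (α β μ : ℝ)
    (hB : β - α < ∑ i, (v i : ℝ)) : Emp v (Reg α β μ (Fintype.card κ - μ)) := by
  have hk : (1 : ℝ) ≤ Fintype.card κ := by exact_mod_cast hκ
  have h := Pool.Agent.TH819.NagA.Emp_final v α β (μ - ⌊μ⌋) (Fintype.card κ - (μ - ⌊μ⌋))
    (by have := Int.floor_le μ; linarith)
    (by have := Int.lt_floor_add_one μ; linarith) (by ring) hB
  refine h.comap 1 (-⌊μ⌋) 0 1 0 0 (by norm_num) ?_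
  rintro ⟨a, b⟩ ⟨hb, hl, hr⟩
  simp only at hb hl hr
  refine ⟨by simpa using hb, ?_, ?_⟩
  · simp only; push_cast; linarith
  · simp only; push_cast; linarith

theorem Reg_finite {α β μ ν : ℝ} (h : 0 < μ + ν) : (Reg α β μ ν).Finite := by
  obtain ⟨B, hB⟩ : ∃ B : ℤ, B = ⌈(|α| + |β|) / (μ + ν)⌉ := ⟨_, rfl⟩
  obtain ⟨A, hA⟩ : ∃ A : ℤ, A = ⌈|α| + |β| + (|μ| + |ν|) * B⌉ := ⟨_, rfl⟩
  apply Set.Finite.subset ((Set.finite_Icc (-A) A).prod (Set.finite_Icc 0 B))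
  rintro ⟨a, b⟩ ⟨h1, h2, h3⟩
  simp only at h1 h2 h3
  have hb0 : (0 : ℝ) ≤ b := by exact_mod_cast h1
  have h4 : (b : ℝ) ≤ (|α| + |β|) / (μ + ν) := by
    rw [le_div_iff₀ h]
    have := neg_abs_le α
    have := le_abs_self β
    nlinarith
  have hbB : (b : ℝ) ≤ B := by
    rw [hB]; exact h4.trans (Int.le_ceil _)
  have hA' : |α| + |β| + (|μ| + |ν|) * (B : ℝ) ≤ A := by rw [hA]; exact Int.le_ceil _
  have g1 : |μ| * (b : ℝ) ≤ |μ| * B := mul_le_mul_of_nonneg_left hbB (abs_nonneg _)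
  have g2 : |ν| * (b : ℝ) ≤ |ν| * B := mul_le_mul_of_nonneg_left hbB (abs_nonneg _)
  have g3 : -(|μ| * (b : ℝ)) ≤ μ * b := by
    rw [← neg_mul]; exact mul_le_mul_of_nonneg_right (neg_abs_le _) hb0
  have g4 : -(|ν| * (b : ℝ)) ≤ ν * b := by
    rw [← neg_mul]; exact mul_le_mul_of_nonneg_right (neg_abs_le _) hb0
  have g5 := neg_abs_le α
  have g6 := le_abs_self β
  have g7 := abs_nonneg α
  have g8 := abs_nonneg β
  have g9 : 0 ≤ |μ| * (b : ℝ) := by positivity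
  have g10 : 0 ≤ |ν| * (b : ℝ) := by positivity
  refine ⟨⟨?_, ?_⟩, ⟨h1, ?_⟩⟩
  · have : (-(A : ℝ)) ≤ a := by nlinarith
    show -A ≤ a
    exact_mod_cast this
  · have : (a : ℝ) ≤ A := by nlinarith
    show a ≤ A
    exact_mod_cast this
  · show b ≤ B
    exact_mod_cast hbB

/-- points absorbed into the left corner of a triangle -/
theorem Emp_absorb {ι κ : Type} [Fintype ι] [Fintype κ] {w : ι → ℕ} (v : κ → ℕ)
    {α β μ ν : ℝ} (h : 0 < μ + ν)
    (hw : Emp w {m : ℤ × ℤ | m ∈ Reg α β μ ν ∧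
      α + ∑ i, (v i : ℝ) + (μ - Fintype.card κ) * (m.2 : ℝ) ≤ (m.1 : ℝ)}) :
    Emp (Sum.elim v w) (Reg α β μ ν) := by
  obtain ⟨S, hS⟩ : ∃ S : Set (ℤ × ℤ), S = {m | m ∈ Reg α β μ ν ∧
      (m.1 : ℝ) < α + ∑ i, (v i : ℝ) + (μ - Fintype.card κ) * (m.2 : ℝ)} := ⟨_, rfl⟩
  obtain ⟨T, hT⟩ : ∃ T : Set (ℤ × ℤ), T = {m | m ∈ Reg α β μ ν ∧
      α + ∑ i, (v i : ℝ) + (μ - Fintype.card κ) * (m.2 : ℝ) ≤ (m.1 : ℝ)} := ⟨_, rfl⟩
  rw [← hT] at hw
  have hfin := Reg_finite (α := α) (β := β) h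
  have hSf : S.Finite := by rw [hS]; exact hfin.subset fun m hm => hm.1
  have hTf : T.Finite := by rw [hT]; exact hfin.subset fun m hm => hm.1
  have hSv : Emp v S := by
    rcases Nat.eq_zero_or_pos (Fintype.card κ) with h0 | h0
    · -- no points
      have hemp : S = ∅ := by
        rw [hS, Set.eq_empty_iff_forall_notMem]
        rintro ⟨a, b⟩ ⟨⟨g1, g2, g3⟩, g4⟩
        have : IsEmpty κ := Fintype.card_eq_zero_iff.1 h0
        simp only [univ_eq_empty, sum_empty, h0, Nat.cast_zero] at g4 g2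
        linarith
      rw [hemp]
      exact Emp_empty v
    · -- a slightly smaller base
      obtain ⟨δ, hδ0, hδ⟩ : ∃ δ : ℝ, 0 < δ ∧ ∀ m ∈ S, (m.1 : ℝ) ≤
          α + ∑ i, (v i : ℝ) + (μ - Fintype.card κ) * (m.2 : ℝ) - δ := by
        rcases S.eq_empty_or_nonempty with h1 | h1
        · refine ⟨1, one_pos, fun m hm => ?_⟩
          rw [h1] at hm
          exact absurd hm (Set.notMem_empty m)
        · obtain ⟨m0, hm0, hmax⟩ := Set.exists_max_image S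
            (fun m => (m.1 : ℝ) - (μ - Fintype.card κ) * (m.2 : ℝ)) hSf h1
          have hm0' := hm0
          rw [hS] at hm0'
          refine ⟨α + ∑ i, (v i : ℝ) - ((m0.1 : ℝ) - (μ - Fintype.card κ) * (m0.2 : ℝ)),
            by have := hm0'.2; linarith, fun m hm => ?_⟩
          have := hmax m hm
          linarith
      refine (Emp_tri h0 v α (α + ∑ i, (v i : ℝ) - δ) μ (by linarith)).mono ?_
      intro m hm
      have h2 := hδ m hm
      rw [hS] at hm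
      obtain ⟨⟨g1, g2, g3⟩, g4⟩ := hm
      exact ⟨g1, g2, by linarith⟩
  have h1 := Emp_sep hSf hTf (μ - Fintype.card κ) (α + ∑ i, (v i : ℝ))
    (by
      intro m hm
      rw [hS] at hm
      have := hm.2
      linarith)
    (by
      intro m hm
      rw [hT] at hm
      have := hm.2
      linarith) hSv hw
  refine h1.mono fun m hm => ?_
  by_cases h2 : (m.1 : ℝ) < α + ∑ i, (v i : ℝ) + (μ - Fintype.card κ) * (m.2 : ℝ)
  · left; rw [hS]; exact ⟨hm, h2⟩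
  · right; rw [hT]; exact ⟨hm, not_lt.1 h2⟩

end Pool.Agent.TH207.NC
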